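import Pool.Agent.K3h98.RL.Thm
import Pool.Agent.TH648.EN.Smooth
import Pool.Agent.TH885.CO.Plus

set_option autoImplicit false

/-!
# Reduced linear systems: the double and simple base points may be removed

Let the points `P i`, `i < n`, of the complex projective plane be very general (their `2 n` affine coordinates are
algebraically independent over `ℚ`), and let `w i` be any multiplicities. Let `big w` be the vector of the multiplicities
larger than two, the others being replaced by zero. There may be any number of points of multiplicity one and two.

(1) If a system `|d H - ∑ w i E i|` has a reduced member, then the points of multiplicity at most two impose independent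
conditions on the system `|d H - ∑ big w i E i|`. So the superabundance of a system with a reduced member depends only
on the multiplicities larger than two.

(2) So if `|d H - ∑ big w i E i|` is nonspecial and `|d H - ∑ w i E i|` has a reduced member, then it is nonspecial.

(3) If `|d H - ∑ big w i E i|` is nonspecial and not empty, then Q1 holds for `|(d + 1) H - ∑ w i E i|`: if its
general member is reduced, then it is nonspecial, and its general member is smooth on the blow-up.

(4) Example: let `t ≥ 37` of the multiplicities be equal to `m ≥ 3` and all others at most two. Then Q1 holds in all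
degrees `d`, except possibly in the only degree `D` with
`(D + 1).choose 2 ≤ t (m + 1).choose 2 < (D + 2).choose 2`, and also in this degree if there are `c` double and `b`
simple points with `3 c + b ≥ D + 1`; a system with a reduced member is nonspecial also in degree `D`.

Method. (1) is the lemma of Terracini for general points, here for systems with arbitrary other multiple points: the
derivatives of the equation of the general member with respect to the coordinates of the double points are forms of the
system with these multiplicities lowered, and their leading forms are independent, since a reduced curve has no double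
tangents at generic double points. (3): let `Q` be a singular point of the general member (in the plane, or on an
exceptional curve). By moving the points one finds that the system `u` with all multiplicities one and two lowered by one
vanishes at `Q`. The value at `Q` of the forms of the system `big w` is then a combination `∑ κ_k F(P k)` of the values
at the double points `P k`. Moving the points `P k` one finds relations between the gradients of the forms of the system
`u` at `Q` and at `P k`, from which at most one `κ_k` is not zero, since the gradients at the double points are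
independent. And this one is zero since the system contains the products of a nonzero form of degree `d` with all linear
forms. So `Q` would be a base point of the system `big w` in degree `d + 1`, but there are none.
-/

namespace Pool.Agent.Results.MP_0421d9_ag.DoublePointsRemoved

open MvPolynomial Pool.Agent.H248R5

/-- The multiplicities larger than two; the others are replaced by zero. -/
def big {n : ℕ} (w : Fin n → ℕ) : Fin n → ℕ := fun i => if 2 < w i then w i else 0

/-- The system has the expected dimension. -/
def Nonspecial {n : ℕ} (w : Fin n → ℕ) (P : Fin n → Fin 2 → ℂ) (d : ℕ) : Prop :=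
  Module.finrank ℂ ↥(forms w P d) = (d + 2).choose 2 - ∑ i, (w i + 1).choose 2

/-- Q1 for the class of degree `d` with the multiplicities `w` at the points `P`: if some element of the system is
squarefree, then the conditions are independent, and the general member is smooth on the blow-up. -/
def Q1At {n : ℕ} (w : Fin n → ℕ) (P : Fin n → Fin 2 → ℂ) (d : ℕ) : Prop :=
  (∃ f ∈ forms w P d, Squarefree f) →
    Module.finrank ℂ ↥(forms w P d) + ∑ i, (w i + 1).choose 2 = (d + 2).choose 2 ∧
      GeneralMember (forms w P d) (SmoothMember w P)

theorem pos_of_mem {n : ℕ} {w : Fin n → ℕ} {P : Fin n → Fin 2 → ℂ} {d : ℕ}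
    {f : MvPolynomial (Fin 3) ℂ} (hf : f ∈ forms w P d) (h0 : f ≠ 0) :
    0 < Module.finrank ℂ ↥(forms w P d) := by
  have hfin := Pool.Agent.H248R6.forms_finite w P d
  have : Nontrivial ↥(forms w P d) := ⟨⟨⟨f, hf⟩, 0, fun h => h0 (congrArg Subtype.val h)⟩⟩
  exact Module.finrank_pos_iff.2 this

theorem sum_big {n : ℕ} (w : Fin n → ℕ) : ∑ i, (w i + 1).choose 2 =
    ∑ i, (big w i + 1).choose 2 + ∑ i, (if 2 < w i then 0 else (w i + 1).choose 2) := by
  rw [← Finset.sum_add_distrib]
  refine Finset.sum_congr rfl fun i _ => ?_
  unfold big
  by_cases hi : 2 < w i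
  · rw [if_pos hi, if_pos hi, add_zero]
  · rw [if_neg hi, if_neg hi]
    simp

theorem result (n : ℕ) (w : Fin n → ℕ) (P : Fin n → Fin 2 → ℂ)
    (hP : AlgebraicIndependent ℚ (fun ij : Fin n × Fin 2 => P ij.1 ij.2)) :
    -- (1)
    (∀ d, (∃ f ∈ forms w P d, Squarefree f) →
      Module.finrank ℂ ↥(forms w P d) + ∑ i, (if 2 < w i then 0 else (w i + 1).choose 2) =
        Module.finrank ℂ ↥(forms (big w) P d)) ∧
    -- (2)
    (∀ d, Nonspecial (big w) P d → (∃ f ∈ forms w P d, Squarefree f) →
      Module.finrank ℂ ↥(forms w P d) + ∑ i, (w i + 1).choose 2 = (d + 2).choose 2) ∧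
    -- (3)
    (∀ d, Nonspecial (big w) P d → forms (big w) P d ≠ ⊥ → Q1At w P (d + 1)) ∧
    -- (4)
    (∀ m t : ℕ, 3 ≤ m → 37 ≤ t → (∀ i, w i ≤ 2 ∨ w i = m) →
      (Finset.univ.filter fun i => w i = m).card = t →
      (∀ d, Nonspecial (big w) P d) ∧
      (∀ d, ¬ ((d + 1).choose 2 ≤ t * (m + 1).choose 2 ∧
        t * (m + 1).choose 2 < (d + 2).choose 2) → Q1At w P d) ∧
      ∀ D, (D + 1).choose 2 ≤ t * (m + 1).choose 2 → t * (m + 1).choose 2 < (D + 2).choose 2 →
        D + 1 ≤ 3 * (Finset.univ.filter fun i => w i = 2).card +
          (Finset.univ.filter fun i => w i = 1).card → ∀ d, Q1At w P d) := by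
  classical
  have hbig : Pool.Agent.K3h98.RL.big w = big w := rfl
  have H1 : ∀ d, (∃ f ∈ forms w P d, Squarefree f) →
      Module.finrank ℂ ↥(forms w P d) + ∑ i, (if 2 < w i then 0 else (w i + 1).choose 2) =
        Module.finrank ℂ ↥(forms (big w) P d) := by
    rintro d ⟨f, hf, hsq⟩
    exact Pool.Agent.K3h98.RL.reduced_dim hP hf hsq
  have H2 : ∀ d, Nonspecial (big w) P d → (∃ f ∈ forms w P d, Squarefree f) →
      Module.finrank ℂ ↥(forms w P d) + ∑ i, (w i + 1).choose 2 = (d + 2).choose 2 := by
    intro d hns hex
    have h1 := H1 d hex
    obtain ⟨f, hf, hsq⟩ := hex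
    have h2 := pos_of_mem hf hsq.ne_zero
    unfold Nonspecial at hns
    rw [sum_big]
    omega
  have H3 : ∀ d, Nonspecial (big w) P d → forms (big w) P d ≠ ⊥ → Q1At w P (d + 1) := by
    rintro d hns hne ⟨f, hf, hsq⟩
    obtain ⟨F0, hF0, hF00⟩ := Submodule.exists_mem_ne_zero_of_ne_bot hne
    have h2 := pos_of_mem hF0 hF00
    have h3 : Function.Surjective (ev (big w) P d) := surj_of_ind (by
      unfold Nonspecial at hns
      omega)
    exact Pool.Agent.K3h98.RL.smooth_big hP hf hsq h3 hF0 hF00
  refine ⟨H1, H2, H3, ?_⟩
  intro m t hm ht hw hc
  have hsumb : ∑ i, (big w i + 1).choose 2 = t * (m + 1).choose 2 := by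
    have e1 : ∀ i, (big w i + 1).choose 2 = if w i = m then (m + 1).choose 2 else 0 := by
      intro i
      unfold big
      rcases hw i with h | h
      · rw [if_neg (by omega), if_neg (by omega)]
        rfl
      · rw [if_pos (by omega), if_pos h, h]
    rw [Finset.sum_congr rfl fun i _ => e1 i, ← Finset.sum_filter, Finset.sum_const, hc,
      smul_eq_mul]
  have hns : ∀ d, Nonspecial (big w) P d := by
    intro d
    unfold Nonspecial
    obtain ⟨e, he⟩ : ∃ e : Fin t ↪ Fin n, Finset.univ.map e =
        Finset.univ.filter fun i => w i = m := by
      refine ⟨((Finset.univ.filter fun i => w i = m).orderEmbOfFin hc).toEmbedding, ?_⟩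
      exact Finset.map_orderEmbOfFin_univ _ hc
    have h1 := Pool.Agent.TH885.CO.exp_plus (K := ℂ) e (w := big w) (d := d) (fun i hi => by
        rw [he, Finset.mem_filter] at hi
        have h2 : ¬ w i = m := fun h => hi ⟨Finset.mem_univ _, h⟩
        have h3 := (hw i).resolve_right h2
        unfold big
        rw [if_neg (by omega)]
        exact zero_le_one) (by
        obtain ⟨F, hF, hF'⟩ := Pool.Agent.TH648.EN.HY_uni ht m ℂ
        refine ⟨F, hF, fun P' hP' => ?_⟩
        have h2 : (fun j => big w (e j)) = fun _ => m := by
          funext j
          have h3 : e j ∈ Finset.univ.map e := Finset.mem_map_of_mem _ (Finset.mem_univ _)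
          rw [he] at h3
          have h4 := (Finset.mem_filter.1 h3).2
          unfold big
          rw [if_pos (by omega), h4]
        rw [h2]
        exact hF' P' hP' d) hP
    rw [Pool.Agent.W609.CR.vs_eq_forms] at h1
    exact h1
  have H4 : ∀ d, ¬ ((d + 1).choose 2 ≤ t * (m + 1).choose 2 ∧
      t * (m + 1).choose 2 < (d + 2).choose 2) → Q1At w P d := by
    intro d hd
    rcases Nat.lt_or_ge (t * (m + 1).choose 2) ((d + 1).choose 2) with h | h
    · obtain ⟨e, rfl⟩ : ∃ e, d = e + 1 := by
        refine ⟨d - 1, ?_⟩
        rcases Nat.eq_zero_or_pos d with h0 | h0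
        · exfalso
          subst h0
          simp at h
        · omega
      refine H3 e (hns e) fun hbot => ?_
      have h1 := hns e
      unfold Nonspecial at h1
      rw [hbot, finrank_bot, hsumb] at h1
      have e1 : e + 1 + 1 = e + 2 := rfl
      rw [e1] at h
      omega
    · have h2 : (d + 2).choose 2 ≤ t * (m + 1).choose 2 := by
        by_contra h3
        exact hd ⟨h, by omega⟩
      rintro ⟨f, hf, hsq⟩
      exfalso
      have h3 := H2 d (hns d) ⟨f, hf, hsq⟩
      have h4 := pos_of_mem hf hsq.ne_zero
      rw [sum_big, hsumb] at h3
      omega
  refine ⟨hns, H4, fun D hD1 hD2 hD3 d => ?_⟩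
  by_cases hd : (d + 1).choose 2 ≤ t * (m + 1).choose 2 ∧
      t * (m + 1).choose 2 < (d + 2).choose 2
  · have hDd : d = D := by
      rcases lt_trichotomy d D with h | h | h
      · exfalso
        have h1 : (d + 2).choose 2 ≤ (D + 1).choose 2 := Nat.choose_le_choose 2 (by omega)
        omega
      · exact h
      · exfalso
        have h1 : (D + 2).choose 2 ≤ (d + 1).choose 2 := Nat.choose_le_choose 2 (by omega)
        omega
    subst hDd
    rintro ⟨f, hf, hsq⟩
    exfalso
    have h3 := H2 d (hns d) ⟨f, hf, hsq⟩
    have h4 := pos_of_mem hf hsq.ne_zero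
    have h5 : ∑ i, (if 2 < w i then 0 else (w i + 1).choose 2) =
        3 * (Finset.univ.filter fun i => w i = 2).card +
          (Finset.univ.filter fun i => w i = 1).card := by
      rw [Finset.card_filter, Finset.card_filter, Finset.mul_sum, ← Finset.sum_add_distrib]
      refine Finset.sum_congr rfl fun i _ => ?_
      by_cases hi : 2 < w i
      · rw [if_pos hi, if_neg (by omega), if_neg (by omega), mul_zero, add_zero]
      · rw [if_neg hi]
        have h6 : w i ≤ 2 := by omega
        interval_cases h7 : w i <;> simp
    rw [sum_big, hsumb, h5] at h3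
    have h6 : (d + 2).choose 2 = (d + 1).choose 2 + (d + 1) := by
      have h7 := Nat.choose_succ_succ (d + 1) 1
      rw [Nat.choose_one_right] at h7
      have e1 : (d + 1).succ = d + 2 := rfl
      have e2 : (1 : ℕ).succ = 2 := rfl
      rw [e1, e2] at h7
      omega
    omega
  · exact H4 d hd

end Pool.Agent.Results.MP_0421d9_ag.DoublePointsRemoved
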