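import Pool.Agent.K3h62.NQ.Fin

set_option autoImplicit false

/-!
# Nine arbitrary multiplicities: Q1 in all degrees but those of a short interval

Let `P` be very general points of the complex projective plane and `w` any vector of
multiplicities, let `T` be nine of the points, let `S = ∑_T (w i) ^ 2`, and let `q` be the sum of
the multiplicities larger than two of the other points. (The nine multiplicities at `T` and the
numbers of simple and double points are arbitrary.)

* If `9 (q + 1) ≤ d` and `S ≤ (d - 9 (q + 1)) ^ 2` and the system `|d H - ∑ w i E i|` has a reduced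
  member, then it is nonspecial and its general member is smooth on the blow-up.
* If `d ^ 2 + 9 < S`, then the system has no reduced member.

Hence Q1 holds in all degrees `d` except possibly those with `d₀ ≤ d < d₀ + 9 q + 12`, where `d₀` is
the least number with `S ≤ d₀ ^ 2 + 9`.
-/

namespace Pool.Agent.Results.MP_0421d9_ag.NineArbitraryOffQuadric

open MvPolynomial Pool.Agent.H248R5

/-- The chart `(x, y) ↦ p + x (v + y v')` of the blow-up of the plane at the point `p`, with origin
the point of the exceptional curve `x = 0` given by the direction `v`; here `v, v'` is a basis of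
the plane. This is the pullback of a form in three variables to the chart. -/
noncomputable def chart (p v v' : Fin 2 → ℂ) :
    MvPolynomial (Fin 3) ℂ →ₐ[ℂ] MvPolynomial (Fin 2) ℂ :=
  aeval ![C (p 0) + X 0 * (C (v 0) + C (v' 0) * X 1), C (p 1) + X 0 * (C (v 1) + C (v' 1) * X 1), 1]

/-- The member `f = 0` of the linear system `|d H - ∑ w i E i|` is a smooth curve on the blow-up of
the plane at the points `P i`: it is smooth at all points of the plane different from the `P i`
(at `Q` either `f` or a partial derivative of `f` does not vanish), and for every `i` and every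
direction `v`, in the chart of the blow-up at `P i` centred at `v` the form `f` is `x ^ w i` times a
local equation `H` such that `H` or a partial derivative of `H` does not vanish at the origin. -/
def SmoothOnBlowup {n : ℕ} (P : Fin n → Fin 2 → ℂ) (w : Fin n → ℕ)
    (f : MvPolynomial (Fin 3) ℂ) : Prop :=
  (∀ Q : Fin 3 → ℂ, Q ≠ 0 → (∀ i, ∀ c : ℂ, Q ≠ c • (![P i 0, P i 1, 1] : Fin 3 → ℂ)) →
    eval Q f ≠ 0 ∨ ∃ a, eval Q (pderiv a f) ≠ 0) ∧
  ∀ i (v v' : Fin 2 → ℂ), v 0 * v' 1 - v 1 * v' 0 ≠ 0 →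
    ∃ H : MvPolynomial (Fin 2) ℂ, chart (P i) v v' f = X 0 ^ w i * H ∧
      (eval 0 H ≠ 0 ∨ ∃ a, eval 0 (pderiv a H) ≠ 0)

/-- The conclusion of Q1: the system has the expected dimension, which is at least zero, and its
general member is smooth on the blow-up. -/
def Good {n : ℕ} (w : Fin n → ℕ) (P : Fin n → Fin 2 → ℂ) (d : ℕ) : Prop :=
  Module.finrank ℂ ↥(forms w P d) + ∑ i, (w i + 1).choose 2 = (d + 2).choose 2 ∧
    GeneralMember (forms w P d) (SmoothOnBlowup P w)

/-- Q1 for the system of degree `d` with the multiplicities `w` at the points `P`: if some member is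
reduced, then the system is nonspecial and its general member is smooth on the blow-up. -/
def Q1At {n : ℕ} (w : Fin n → ℕ) (P : Fin n → Fin 2 → ℂ) (d : ℕ) : Prop :=
  (∃ f ∈ forms w P d, Squarefree f) → Good w P d

/-- The sum of the multiplicities larger than two outside of `T`. -/
def rest {n : ℕ} (T : Finset (Fin n)) (w : Fin n → ℕ) : ℕ :=
  ∑ j ∈ Tᶜ, if w j ≤ 2 then 0 else w j

theorem q1_off {n : ℕ} (w : Fin n → ℕ) (T : Finset (Fin n)) (hT : T.card = 9)
    (P : Fin n → Fin 2 → ℂ)
    (hP : AlgebraicIndependent ℚ (fun ij : Fin n × Fin 2 => P ij.1 ij.2)) (d : ℕ)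
    (hd : 9 * (rest T w + 1) ≤ d) (hq : ∑ j ∈ T, w j ^ 2 ≤ (d - 9 * (rest T w + 1)) ^ 2) :
    Q1At w P d := by
  rintro ⟨f, hf, hsq⟩
  rw [← Pool.Agent.W609.CR.vs_eq_forms] at hf
  obtain ⟨h1, h2⟩ := Pool.Agent.K3h62.NQ.main hP hT (w := w) (q := rest T w) le_rfl hd hq hf hsq
  rw [Pool.Agent.W609.CR.vs_eq_forms] at h1 h2
  rw [Pool.Agent.TH167.SH.chi_cast] at h1
  exact ⟨by omega, h2⟩

theorem none_in {n : ℕ} (w : Fin n → ℕ) (T : Finset (Fin n)) (hT : T.card = 9)
    (P : Fin n → Fin 2 → ℂ)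
    (hP : AlgebraicIndependent ℚ (fun ij : Fin n × Fin 2 => P ij.1 ij.2)) (d : ℕ)
    (hq : d ^ 2 + 9 < ∑ j ∈ T, w j ^ 2) : ¬ ∃ f ∈ forms w P d, Squarefree f := by
  rintro ⟨f, hf, hsq⟩
  rw [← Pool.Agent.W609.CR.vs_eq_forms] at hf
  exact Pool.Agent.K3h62.NQ.no_sq hP hT hq hf hsq

/-- **Main result.** -/
theorem result {n : ℕ} (w : Fin n → ℕ) (T : Finset (Fin n)) (hT : T.card = 9)
    (P : Fin n → Fin 2 → ℂ)
    (hP : AlgebraicIndependent ℚ (fun ij : Fin n × Fin 2 => P ij.1 ij.2)) :
    (∀ d : ℕ, 9 * (rest T w + 1) ≤ d → ∑ j ∈ T, w j ^ 2 ≤ (d - 9 * (rest T w + 1)) ^ 2 →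
      Q1At w P d) ∧
    (∀ d : ℕ, d ^ 2 + 9 < ∑ j ∈ T, w j ^ 2 → ¬ ∃ f ∈ forms w P d, Squarefree f) ∧
    ∀ d₀ : ℕ, IsLeast {x : ℕ | ∑ j ∈ T, w j ^ 2 ≤ x ^ 2 + 9} d₀ → ∀ d : ℕ, ¬ Q1At w P d →
      d₀ ≤ d ∧ d < d₀ + (9 * rest T w + 12) := by
  refine ⟨fun d => q1_off w T hT P hP d, fun d => none_in w T hT P hP d, ?_⟩
  rintro d₀ ⟨h0, hmin⟩ d hd
  have h3 : d₀ ≤ d := by
    by_contra h3
    have h4 : d ^ 2 + 9 < ∑ j ∈ T, w j ^ 2 := by
      by_contra h5
      push Not at h5
      have := hmin h5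
      omega
    exact hd fun h => absurd h (none_in w T hT P hP d h4)
  refine ⟨h3, ?_⟩
  by_contra h4
  apply hd
  refine q1_off w T hT P hP d (by omega) (le_trans h0 ?_)
  have h5 : d₀ + 3 ≤ d - 9 * (rest T w + 1) := by omega
  have h6 := Nat.pow_le_pow_left h5 2
  nlinarith

end Pool.Agent.Results.MP_0421d9_ag.NineArbitraryOffQuadric
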