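import Pool.Agent.K3h62.SI.Core

set_option autoImplicit false

/-!
# Arbitrary multiplicities at most `μ`: the degrees in which Q1 could fail lie in an interval of length `O(μ)`

Let `v` be any vector of multiplicities `v i ≤ μ`, of any length `n ≥ 1`, and let the points be general: all points of
the complex projective plane outside one hypersurface, defined over the rationals, which depends only on `v`. Let
`χ d = (d + 2).choose 2 - ∑ (v i + 1).choose 2` be the expected dimension of the vector space of the forms of degree `d` with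
these multiplicities.

(1) If `∑ v i + 4 |χ d| ≥ 26000 (μ + 2) ^ 2`, then `|d H - ∑ v i E i|` is nonspecial; if moreover `χ d` is larger than all
`v i`, then for all `u i ≤ v i` the system `|d H - ∑ u i E i|` is nonspecial and its general member is a smooth curve on the
blow-up.

(2) The degrees `d` in which Q1 fails (some member is given by a squarefree form, but the system is special or its general
member is singular on the blow-up) lie in an interval `[a, a + 162 (μ + 2))` which depends only on `v`. They all satisfy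
`(d + 1) ^ 2 < 26000 (μ + 2) ^ 3` and `∑ v i + 4 |χ d| < 26000 (μ + 2) ^ 2`, except possibly one degree `d₀`, the least
degree with `χ > 0`, and this only if `0 < χ d₀ ≤ max v`. In particular, if `∑ v i ≥ 26000 (μ + 2) ^ 2`, then Q1 holds in all
degrees but possibly this one.
-/

namespace Pool.Agent.Results.MP_0421d9_ag.ShortDegreeInterval

open MvPolynomial Pool.Agent.H248R5

/-- The expected dimension (before taking the maximum with `0`) of the vector space of the forms of degree `d` with the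
multiplicities `v`. -/
def chi {n : ℕ} (d : ℕ) (v : Fin n → ℕ) : ℤ :=
  ((d + 2).choose 2 : ℤ) - ∑ i, ((v i + 1).choose 2 : ℤ)

/-- Q1 for the class of degree `d` with the multiplicities `v` at the points `P`: if some element of the system is
squarefree, then the system has the expected dimension, and its general member is smooth on the blow-up. -/
def Q1At {n : ℕ} (v : Fin n → ℕ) (P : Fin n → Fin 2 → ℂ) (d : ℕ) : Prop :=
  (∃ f ∈ forms v P d, Squarefree f) →
    Module.finrank ℂ ↥(forms v P d) + ∑ i, (v i + 1).choose 2 = (d + 2).choose 2 ∧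
      GeneralMember (forms v P d) (SmoothMember v P)

theorem result (n μ : ℕ) (hn : 0 < n) (v : Fin n → ℕ) (hv : ∀ i, v i ≤ μ) :
    ∃ (a d₀ : ℕ) (F : MvPolynomial (Fin n × Fin 2) ℚ), F ≠ 0 ∧ ∀ P : Fin n → Fin 2 → ℂ,
      MvPolynomial.aeval (fun ij : Fin n × Fin 2 => P ij.1 ij.2) F ≠ 0 → ∀ d : ℕ,
        -- (1)
        (26000 * ((μ : ℤ) + 2) ^ 2 ≤ ∑ i, (v i : ℤ) + 4 * |chi d v| →
          Module.finrank ℂ ↥(forms v P d) = (d + 2).choose 2 - ∑ i, (v i + 1).choose 2 ∧
          ((∀ i, (v i : ℤ) < chi d v) → ∀ u : Fin n → ℕ, (∀ i, u i ≤ v i) →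
            Module.finrank ℂ ↥(forms u P d) + ∑ i, (u i + 1).choose 2 = (d + 2).choose 2 ∧
              GeneralMember (forms u P d) (SmoothMember u P))) ∧
        -- (2)
        (¬ Q1At v P d → a ≤ d ∧ d < a + 162 * (μ + 2) ∧
          ((d = d₀ ∧ 0 < chi d v ∧ (∃ i, chi d v ≤ v i) ∧ ∀ e < d, chi e v ≤ 0) ∨
            (∑ i, (v i : ℤ) + 4 * |chi d v| < 26000 * ((μ : ℤ) + 2) ^ 2 ∧
              ((d : ℤ) + 1) ^ 2 < 26000 * ((μ : ℤ) + 2) ^ 3))) := by
  classical
  obtain ⟨F, hF, hF'⟩ := Pool.Agent.K3h62.SI.main (K := ℂ) (μ := μ) hn v hv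
  have hchi : ∀ d, Pool.Agent.R873.SB.chi d v = chi d v := fun d => rfl
  have hμ : (0 : ℤ) ≤ μ := Int.natCast_nonneg _
  -- the interval
  obtain ⟨a, ha⟩ : ∃ a : ℕ, ∀ d : ℕ, 4 * |chi d v| < 26000 * ((μ : ℤ) + 2) ^ 2 →
      a ≤ d ∧ d < a + 162 * (μ + 2) := by
    by_cases hex : ∃ d : ℕ, 4 * |chi d v| < 26000 * ((μ : ℤ) + 2) ^ 2
    · refine ⟨Nat.find hex, fun d hd => ⟨Nat.find_min' hex hd, ?_⟩⟩
      exact Pool.Agent.K3h62.SI.short (v := v) (Nat.find_spec hex) hd
    · push Not at hex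
      exact ⟨0, fun d hd => absurd hd (not_lt.2 (hex d))⟩
  -- the critical degree
  obtain ⟨d₀, hd₀⟩ : ∃ d₀ : ℕ, ∀ d : ℕ, 0 < chi d v → (∃ i, chi d v ≤ v i) → d = d₀ := by
    by_cases hex : ∃ d : ℕ, 0 < chi d v ∧ ∃ i, chi d v ≤ v i
    · obtain ⟨d₀, h1, i, h2⟩ := hex
      refine ⟨d₀, fun d h3 h4 => ?_⟩
      obtain ⟨j, h4⟩ := h4
      exact Pool.Agent.K3h62.SI.crit_unique (v := v) (k := j) (k' := i) (by rw [hchi]; omega)
        (by rw [hchi]; exact h4) (by rw [hchi]; omega) (by rw [hchi]; exact h2)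
    · push Not at hex
      exact ⟨0, fun d h3 h4 => by
        obtain ⟨j, h4⟩ := h4
        exact absurd h4 (not_le.2 (hex d h3 j))⟩
  refine ⟨a, d₀, F, hF, fun P hP d => ?_⟩
  obtain ⟨h1, h2⟩ := hF' P hP
  have hone : 26000 * ((μ : ℤ) + 2) ^ 2 ≤ ∑ i, (v i : ℤ) + 4 * |chi d v| →
      Module.finrank ℂ ↥(forms v P d) = (d + 2).choose 2 - ∑ i, (v i + 1).choose 2 ∧
      ((∀ i, (v i : ℤ) < chi d v) → ∀ u : Fin n → ℕ, (∀ i, u i ≤ v i) →
        Module.finrank ℂ ↥(forms u P d) + ∑ i, (u i + 1).choose 2 = (d + 2).choose 2 ∧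
          GeneralMember (forms u P d) (SmoothMember u P)) := by
    intro hb
    refine ⟨h1 d hb, fun hd u hu => h2 u hu d ⟨hb, fun k => ?_⟩⟩
    rw [hchi]
    have := hd k
    omega
  refine ⟨hone, fun hq => ?_⟩
  by_cases hb : 26000 * ((μ : ℤ) + 2) ^ 2 ≤ ∑ i, (v i : ℤ) + 4 * |chi d v|
  · -- the critical degree
    obtain ⟨h3, h4⟩ := hone hb
    have h5 : 0 < chi d v := by
      by_contra hcon
      push Not at hcon
      apply hq
      rintro ⟨f, hf, hsq⟩
      exfalso
      have h6 : Module.finrank ℂ ↥(forms v P d) = 0 := by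
        rw [h3]
        have h7 := Pool.Agent.K3h62.SI.chi_nat d v
        rw [hchi] at h7
        omega
      have hfin : Module.Finite ℂ ↥(forms v P d) := by
        have hf : Module.Finite ℂ ↥(homogeneousSubmodule (Fin 3) ℂ d) :=
          Module.Finite.iff_fg.2 (homogeneousSubmodule_fg _ _ d)
        exact Submodule.finiteDimensional_of_le inf_le_left
      have h8 : forms v P d = ⊥ := Submodule.finrank_eq_zero.1 h6
      rw [h8, Submodule.mem_bot] at hf
      exact hsq.ne_zero hf
    have h6 : ∃ i, chi d v ≤ v i := by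
      by_contra hcon
      push Not at hcon
      exact hq fun _ => h4 hcon v fun _ => le_rfl
    obtain ⟨i, hi⟩ := h6
    have hvi : (v i : ℤ) ≤ μ := by exact_mod_cast hv i
    have h7 : 4 * |chi d v| < 26000 * ((μ : ℤ) + 2) ^ 2 := by
      rw [abs_of_pos h5]
      nlinarith
    refine ⟨(ha d h7).1, (ha d h7).2, Or.inl ⟨hd₀ d h5 ⟨i, hi⟩, h5, ⟨i, hi⟩, fun e he => ?_⟩⟩
    by_contra hcon
    push Not at hcon
    have h8 := Pool.Agent.K3h62.SI.chi_mono v he
    have h9 := Pool.Agent.K3h62.SI.mult_le (d := e) (v := v) (by rw [hchi]; omega) i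
    rw [hchi, hchi] at h8
    omega
  · push Not at hb
    have h3 : (0 : ℤ) ≤ ∑ i, (v i : ℤ) := Finset.sum_nonneg fun i _ => Int.natCast_nonneg _
    have h7 : 4 * |chi d v| < 26000 * ((μ : ℤ) + 2) ^ 2 := by linarith
    exact ⟨(ha d h7).1, (ha d h7).2, Or.inr ⟨hb, Pool.Agent.K3h62.SI.deg_small hv hb⟩⟩

end Pool.Agent.Results.MP_0421d9_ag.ShortDegreeInterval
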