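import Pool.Agent.K3h98.RL.Fin

set_option autoImplicit false

/-!
# Q1 in every degree for vectors with enough small multiplicities

Let `v` be any vector of multiplicities `v i ≤ μ`, of any length `n ≥ 1`, and let the points be very general: points of
the complex projective plane whose `2 n` affine coordinates are algebraically independent over `ℚ`. Let
`χ d = (d + 2).choose 2 - ∑ (v i + 1).choose 2`, and consider degrees `d` with `∑ v i + 4 |χ d| ≥ 27000 (μ + 3) ^ 2`
(all degrees, if `∑ v i ≥ 27000 (μ + 3) ^ 2`).

(1) If `χ d ≥ 1`, and if `χ d + ∑ v i ≥ 2 μ + 3`, the sum over the `i` with `v i < χ d`, or `χ d + b > v i` for all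
`i`, where `b` is the number of the `i` with `v i = 1`, then `|d H - ∑ v i E i|` is nonspecial and its general member is
smooth on the blow-up.

(2) Q1 holds in degree `d`, unless `χ d ≥ 1`, `χ d + ∑ v i ≤ 2 μ + 2`, the sum over the `i` with `v i < χ d` or
`v i ≤ 2`, and `χ d + b ≤ v i` for some `i`. There is at most one such degree.

(3) If `∑ v i ≥ 2 μ + 2`, the sum over the `i` with `v i ≤ a`, then Q1 holds in all degrees for which not
`1 ≤ χ d ≤ a`, and if `a ≤ 2`, then it holds in all degrees.

(4) In particular, if `∑ v i ≥ 27000 (μ + 3) ^ 2`, and if there are `μ` simple points, or if the number of simple points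
plus twice the number of double points is at least `2 μ + 2`, then Q1 holds in all degrees.

Method. Let `Q` be a singular point of the general member `G` (in the plane, or a direction in which `G` is tangent to
an exceptional curve). Moving the point `P k`, one finds that the system with the multiplicity `v k` lowered by one
vanishes at `Q`, if all leading forms occur at `P k` (this is the case if `v k < χ d`), or if `v k ≤ 2` and `G` is
reduced: then the partial derivatives of the leading form of `G` span the linear forms, since the double points of a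
reduced curve at generic points have no double tangent. So the system `u` with all these multiplicities lowered
vanishes at `Q`. Its virtual dimension is at least `2 μ + 3`, so the general members of the systems with one raised
multiplicity `u k + 1` are smooth, and this implies, by moving the points again, that `u` has no base points. In the
case of simple points one follows also the gradients at `Q`: they are proportional for all forms of the system without
the simple points, and then all remaining multiplicities may be lowered.
-/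

namespace Pool.Agent.Results.MP_0421d9_ag.SmallMultiplicities

open MvPolynomial Pool.Agent.H248R5

/-- The expected dimension (before taking the maximum with `0`) of the vector space of the forms of degree `d` with the
multiplicities `v`. -/
def chi {n : ℕ} (d : ℕ) (v : Fin n → ℕ) : ℤ :=
  ((d + 2).choose 2 : ℤ) - ∑ i, ((v i + 1).choose 2 : ℤ)

/-- Q1 for the class of degree `d` with the multiplicities `v` at the points `P`: if some element of the system is
squarefree, then the system has the expected dimension, and its general member is smooth on the blow-up. -/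
def Q1At {n : ℕ} (v : Fin n → ℕ) (P : Fin n → Fin 2 → ℂ) (d : ℕ) : Prop :=
  (∃ f ∈ forms v P d, Squarefree f) →
    Module.finrank ℂ ↥(forms v P d) + ∑ i, (v i + 1).choose 2 = (d + 2).choose 2 ∧
      GeneralMember (forms v P d) (SmoothMember v P)

/-- The degree `d` is large enough, or there are sufficiently many points. -/
def Large {n : ℕ} (μ : ℕ) (v : Fin n → ℕ) (d : ℕ) : Prop :=
  27000 * ((μ : ℤ) + 3) ^ 2 ≤ ∑ i, (v i : ℤ) + 4 * |chi d v|

/-- The possible exceptions: the virtual dimension is positive, together with the multiplicities which are smaller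
than it or at most two it is at most `2 μ + 2`, and together with the number of simple points it is at most the largest
multiplicity. -/
def Exception {n : ℕ} (μ : ℕ) (v : Fin n → ℕ) (d : ℕ) : Prop :=
  1 ≤ chi d v ∧
    chi d v + ∑ i ∈ Finset.univ.filter (fun i => (v i : ℤ) < chi d v ∨ v i ≤ 2), (v i : ℤ) ≤
      2 * μ + 2 ∧
    ∃ k, chi d v + (Finset.univ.filter fun i => v i = 1).card ≤ v k

theorem result (n μ : ℕ) (hn : 0 < n) (v : Fin n → ℕ) (hv : ∀ i, v i ≤ μ) (P : Fin n → Fin 2 → ℂ)
    (hP : AlgebraicIndependent ℚ (fun ij : Fin n × Fin 2 => P ij.1 ij.2)) :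
    -- (1)
    (∀ d, Large μ v d → 1 ≤ chi d v →
      (2 * (μ : ℤ) + 3 ≤
          chi d v + ∑ i ∈ Finset.univ.filter (fun i => (v i : ℤ) < chi d v), (v i : ℤ) ∨
        ∀ k, (v k : ℤ) < chi d v + (Finset.univ.filter fun i => v i = 1).card) →
      Module.finrank ℂ ↥(forms v P d) + ∑ i, (v i + 1).choose 2 = (d + 2).choose 2 ∧
        GeneralMember (forms v P d) (SmoothMember v P)) ∧
    -- (2)
    (∀ d, Large μ v d → ¬ Exception μ v d → Q1At v P d) ∧
    (∀ d d', Large μ v d → Large μ v d' → Exception μ v d → Exception μ v d' → d = d') ∧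
    -- (3)
    (∀ a : ℕ, 2 * μ + 2 ≤ ∑ i ∈ Finset.univ.filter (fun i => v i ≤ a), v i →
      ∀ d, Large μ v d → (a ≤ 2 ∨ chi d v ≤ 0 ∨ (a : ℤ) < chi d v) → Q1At v P d) ∧
    -- (4)
    (27000 * (μ + 3) ^ 2 ≤ ∑ i, v i →
      (μ ≤ (Finset.univ.filter fun i => v i = 1).card ∨
        2 * μ + 2 ≤ (Finset.univ.filter fun i => v i = 1).card +
          2 * (Finset.univ.filter fun i => v i = 2).card) →
      ∀ d, Q1At v P d) := by
  classical
  have hchi : ∀ d, Pool.Agent.R873.SB.chi d v = chi d v := fun d => rfl
  have hμ : (0 : ℤ) ≤ μ := Int.natCast_nonneg _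
  have hfin : ∀ d, Large μ v d →
      (Module.finrank ℂ ↥(forms v P d) : ℤ) = max 0 (chi d v) := by
    intro d hd
    have h1 := Pool.Agent.R873.SB.ok_of_generic hP v d μ hv (by
      rw [hchi]
      unfold Large at hd
      nlinarith)
    exact h1
  have hdim : ∀ d, Large μ v d → 1 ≤ chi d v →
      Module.finrank ℂ ↥(forms v P d) + ∑ i, (v i + 1).choose 2 = (d + 2).choose 2 := by
    intro d hd h1
    have h2 := hfin d hd
    rw [max_eq_right (by linarith)] at h2
    unfold chi at h2
    have h3 : (((Module.finrank ℂ ↥(forms v P d) + ∑ i, (v i + 1).choose 2 : ℕ)) : ℤ) =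
        (((d + 2).choose 2 : ℕ) : ℤ) := by
      push_cast
      linarith
    exact_mod_cast h3
  have hneg : ∀ d, Large μ v d → chi d v ≤ 0 → Q1At v P d := by
    rintro d hd h1 ⟨f, hf, hsq⟩
    exfalso
    have h2 := hfin d hd
    rw [max_eq_left h1] at h2
    have h3 : Module.finrank ℂ ↥(forms v P d) = 0 := by exact_mod_cast h2
    have hfi : Module.Finite ℂ ↥(forms v P d) := by
      have hf : Module.Finite ℂ ↥(homogeneousSubmodule (Fin 3) ℂ d) :=
        Module.Finite.iff_fg.2 (homogeneousSubmodule_fg _ _ d)
      exact Submodule.finiteDimensional_of_le inf_le_left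
    have h8 : forms v P d = ⊥ := Submodule.finrank_eq_zero.1 h3
    rw [h8, Submodule.mem_bot] at hf
    exact hsq.ne_zero hf
  have H1 : ∀ d, Large μ v d → 1 ≤ chi d v →
      (2 * (μ : ℤ) + 3 ≤
          chi d v + ∑ i ∈ Finset.univ.filter (fun i => (v i : ℤ) < chi d v), (v i : ℤ) ∨
        ∀ k, (v k : ℤ) < chi d v + (Finset.univ.filter fun i => v i = 1).card) →
      Module.finrank ℂ ↥(forms v P d) + ∑ i, (v i + 1).choose 2 = (d + 2).choose 2 ∧
        GeneralMember (forms v P d) (SmoothMember v P) := by
    intro d hd h1 h2
    refine ⟨hdim d hd h1, ?_⟩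
    rcases h2 with h2 | h2
    · exact Pool.Agent.K3h98.RL.smooth_lt hn hv hP hd h1 h2
    · exact Pool.Agent.K3h98.RL.smooth_simple hn hv hP hd h1 h2
  have H2 : ∀ d, Large μ v d → ¬ Exception μ v d → Q1At v P d := by
    intro d hd hex
    rcases le_or_gt (chi d v) 0 with h1 | h1
    · exact hneg d hd h1
    · by_cases hex2 : ∃ k, chi d v + (Finset.univ.filter fun i => v i = 1).card ≤ v k
      swap
      · push Not at hex2
        exact fun _ => H1 d hd (by linarith) (Or.inr hex2)
      have h2 : 2 * (μ : ℤ) + 2 <
          chi d v + ∑ i ∈ Finset.univ.filter (fun i => (v i : ℤ) < chi d v ∨ v i ≤ 2), (v i : ℤ) := by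
        by_contra hcon
        exact hex ⟨by linarith, by linarith, hex2⟩
      rintro ⟨f, hf, hsq⟩
      rcases lt_or_ge (chi d v) 3 with h3 | h3
      · refine ⟨hdim d hd (by linarith), Pool.Agent.K3h98.RL.smooth_sq hn hv hP hd (by
          rw [hchi]; linarith) ?_ hf hsq⟩
        have e : Finset.univ.filter (fun i => (v i : ℤ) < chi d v ∨ v i ≤ 2) =
            Finset.univ.filter (fun i => v i ≤ 2) := by
          refine Finset.filter_congr fun i _ => ⟨fun h => ?_, fun h => Or.inr h⟩
          rcases h with h | h
          · have : (v i : ℤ) < 3 := by linarith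
            omega
          · exact h
        rw [e] at h2
        rw [hchi]
        linarith
      · have e : Finset.univ.filter (fun i => (v i : ℤ) < chi d v ∨ v i ≤ 2) =
            Finset.univ.filter (fun i => (v i : ℤ) < chi d v) := by
          refine Finset.filter_congr fun i _ => ⟨fun h => ?_, fun h => Or.inl h⟩
          rcases h with h | h
          · exact h
          · have : (v i : ℤ) ≤ 2 := by exact_mod_cast h
            linarith
        rw [e] at h2
        exact H1 d hd (by linarith) (Or.inl (by linarith))
  have H3 : ∀ a : ℕ, 2 * μ + 2 ≤ ∑ i ∈ Finset.univ.filter (fun i => v i ≤ a), v i →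
      ∀ d, Large μ v d → (a ≤ 2 ∨ chi d v ≤ 0 ∨ (a : ℤ) < chi d v) → Q1At v P d := by
    intro a ha d hd h
    refine H2 d hd fun hex => ?_
    obtain ⟨h1, h2, -⟩ := hex
    have h3 : ∑ i ∈ Finset.univ.filter (fun i => v i ≤ a), (v i : ℤ) ≤
        ∑ i ∈ Finset.univ.filter (fun i => (v i : ℤ) < chi d v ∨ v i ≤ 2), (v i : ℤ) := by
      refine Finset.sum_le_sum_of_subset_of_nonneg (fun i hi => ?_) fun i _ _ =>
        Int.natCast_nonneg _
      have h4 := (Finset.mem_filter.1 hi).2
      refine Finset.mem_filter.2 ⟨Finset.mem_univ _, ?_⟩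
      rcases h with h | h | h
      · exact Or.inr (h4.trans h)
      · linarith
      · left
        have : (v i : ℤ) ≤ a := by exact_mod_cast h4
        linarith
    have h4 : (2 * (μ : ℤ) + 2) ≤ ∑ i ∈ Finset.univ.filter (fun i => v i ≤ a), (v i : ℤ) := by
      exact_mod_cast ha
    linarith
  refine ⟨H1, H2, ?_, H3, ?_⟩
  · rintro d d' hd hd' ⟨h1, h2, -⟩ ⟨h1', h2', -⟩
    have h3 : ∀ T : Finset (Fin n), (0 : ℤ) ≤ ∑ i ∈ T, (v i : ℤ) := fun T =>
      Finset.sum_nonneg fun i _ => Int.natCast_nonneg _
    exact Pool.Agent.K3h98.RL.unique_deg hv hd h1 (by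
      rw [hchi]
      have := h3 (Finset.univ.filter (fun i => (v i : ℤ) < chi d v ∨ v i ≤ 2))
      linarith) h1' (by
      rw [hchi]
      have := h3 (Finset.univ.filter (fun i => (v i : ℤ) < chi d' v ∨ v i ≤ 2))
      linarith) hd'
  · intro hs h d
    have hL : Large μ v d := by
      unfold Large
      have h3 : (27000 * ((μ : ℤ) + 3) ^ 2) ≤ ∑ i, (v i : ℤ) := by exact_mod_cast hs
      have h4 : (0 : ℤ) ≤ |chi d v| := abs_nonneg _
      linarith
    rcases h with h | h
    · refine H2 d hL ?_
      rintro ⟨h1, -, k, h3⟩
      have h4 : (v k : ℤ) ≤ μ := by exact_mod_cast hv k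
      have h5 : (μ : ℤ) ≤ (Finset.univ.filter fun i => v i = 1).card := by exact_mod_cast h
      linarith
    · have h1 : (Finset.univ.filter fun i => v i = 1).card +
          2 * (Finset.univ.filter fun i => v i = 2).card ≤
            ∑ i ∈ Finset.univ.filter (fun i => v i ≤ 2), v i := by
        have e1 : (Finset.univ.filter fun i => v i = 1).card =
            ∑ i ∈ Finset.univ.filter (fun i => v i = 1), v i := by
          rw [Finset.card_eq_sum_ones]
          exact Finset.sum_congr rfl fun i hi => (Finset.mem_filter.1 hi).2.symm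
        have e2 : 2 * (Finset.univ.filter fun i => v i = 2).card =
            ∑ i ∈ Finset.univ.filter (fun i => v i = 2), v i := by
          rw [Finset.card_eq_sum_ones, Finset.mul_sum]
          exact Finset.sum_congr rfl fun i hi => by rw [(Finset.mem_filter.1 hi).2, mul_one]
        rw [e1, e2, ← Finset.sum_union]
        · refine Finset.sum_le_sum_of_subset fun i hi => ?_
          rcases Finset.mem_union.1 hi with hi | hi
          · exact Finset.mem_filter.2 ⟨Finset.mem_univ _, by
              rw [(Finset.mem_filter.1 hi).2]; omega⟩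
          · exact Finset.mem_filter.2 ⟨Finset.mem_univ _, by rw [(Finset.mem_filter.1 hi).2]⟩
        · rw [Finset.disjoint_left]
          intro i hi hi'
          have a1 := (Finset.mem_filter.1 hi).2
          have a2 := (Finset.mem_filter.1 hi').2
          omega
      exact H3 2 (h.trans h1) d hL (Or.inl le_rfl)

end Pool.Agent.Results.MP_0421d9_ag.SmallMultiplicities
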